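import Pool.Agent.E8helper71.CP.Y706.CH.Defs

/-!
# Project CH: the statements of the jobs
-/

namespace Pool.Agent.E8helper71.CP.Y706.CH

open Pool.Agent.TH951.W.UB Pool.Agent.TH951.W.UG Pool.Agent.TH951.W.UH Finset Polynomial
open Pool.Agent.E8helper71.CP.Y706.BI (UV eqv fU hh G0 gg rt Av S_TREE)

universe u v w

/-- GRN2: properties of the Green function and of the pairing -/
def S_GRN2 : Prop := ∀ (Ω : Type u) [NormedField Ω] [IsUltrametricDist Ω] [IsAlgClosed Ω],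
  NC Ω → ∀ T : HS Ω, T.gs = 1 → 2 ≤ T.d →
  0 ≤ T.Res ∧
  (∀ X : UV Ω, -T.Res ≤ hh T X ∧ hh T X ≤ 0) ∧
  (∀ X : UV Ω, -(T.Res / ((T.d : ℝ) - 1)) ≤ G0 T X ∧ G0 T X ≤ 0) ∧
  (∀ X : UV Ω, G0 T (fU T X) = T.d * G0 T X - hh T X) ∧
  (∀ (n : ℕ) (X : UV Ω), Real.log ‖T.F^[n] X.1‖ =
    (T.d : ℝ) ^ n * G0 T X - G0 T ((fU T)^[n] X)) ∧
  (∀ X Y : UV Ω, eqv X Y → hh T X = hh T Y ∧ G0 T X = G0 T Y ∧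
    eqv (fU T X) (fU T Y) ∧ ∀ Z, gg T X Z = gg T Y Z ∧ (eqv X Z ↔ eqv Y Z)) ∧
  (∀ X Y : UV Ω, gg T X Y = gg T Y X) ∧
  (∀ (Y : UV Ω) (l : Fin T.d), eqv (fU T (rt T Y l)) Y) ∧
  (∀ X Y : UV Ω, ¬ eqv (fU T X) Y →
    ∑ l, gg T X (rt T Y l) = gg T (fU T X) Y) ∧
  (∀ X Y : UV Ω, ¬ eqv X Y → -(2 * T.Res) ≤ gg T X Y)

/-- LUP: upper bound for the Lyapunov exponent -/
def S_LUP : Prop := ∀ (Ω : Type u) [NormedField Ω] [IsUltrametricDist Ω] [IsAlgClosed Ω],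
  NC Ω → ∀ T : HS Ω, T.gs = 1 → 2 ≤ T.d → ∀ D : JD T,
  D.L ≤ 4 * T.d * T.Res

/-- COV2: points with large expansion are close to the roots of two given points -/
def S_COV2 : Prop := ∀ (Ω : Type u) [NormedField Ω] [IsUltrametricDist Ω] [IsAlgClosed Ω],
  NC Ω → ∀ T : HS Ω, T.gs = 1 → 2 ≤ T.d → ∀ D : JD T,
  ∀ (J : ℕ) (b₁ b₂ : UV Ω),
  ‖wd b₁.1 b₂.1‖ = 1 → ∀ (c₁ c₂ : Ω) (η₁ η₂ : Fin (T.iter J).d → UV Ω),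
  (T.iter J).IsRS b₁.1 c₁ (fun l => (η₁ l).1) →
  (T.iter J).IsRS b₂.1 c₂ (fun l => (η₂ l).1) →
  ∀ (X : UV Ω) (s : ℝ), 0 ≤ s → (∀ j < J, ∀ i, ¬ eqv ((fU T)^[j] X) (D.c i)) →
  s + 4 * T.Res < ∑ j ∈ range J, EE D ((fU T)^[j] X) →
  ∃ l, ‖wd X.1 (η₁ l).1‖ ≤ Real.exp (-s) ∨ ‖wd X.1 (η₂ l).1‖ ≤ Real.exp (-s)

open Classical in
/-- LLN2: the law of large numbers (abstract) -/
def S_LLN2 : Prop := ∀ d : ℕ, 2 ≤ d → ∀ ε : ℝ, 0 < ε → ∃ C : ℝ, 0 ≤ C ∧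
  ∀ (X : Type u) (f : X → X) (r : X → Fin d → X)
  (E : X → X → Prop), Equivalence E → (∀ x y, E x y → E (f x) (f y)) →
  (∀ y l, E (f (r y l)) y) → ∀ g : X → X → ℝ, (∀ x y, g x y = g y x) →
  (∀ x x' y, E x x' → g x y = g x' y) →
  (∀ x y, ¬ E (f x) y → ∑ l, g x (r y l) = g (f x) y) →
  ∀ ρ : ℝ, 0 < ρ → (∀ x y, ¬ E x y → -(2 * ρ) ≤ g x y) →
  ∀ (c : Fin (2 * d - 2) → X) (b : X) (n : ℕ),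
  (∀ j ≤ n, ∀ i, ¬ E (f^[j] (c i)) b ∧ g (f^[j] (c i)) b ≤ 2 * ρ) →
  ∀ J : ℕ, 1 ≤ J → J ≤ n →
  (Av r)^[n] (fun y => if J * ε * ρ ≤ ∑ j ∈ range J, ∑ i, g (f^[j] y) (c i) then (1 : ℝ)
    else 0) b ≤ C / J

open Classical in
/-- TEST2: a set which misses a disc of positive mass has large energy -/
def S_TEST2 : Prop := ∀ (Ω : Type u) [NormedField Ω] [IsUltrametricDist Ω] [IsAlgClosed Ω],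
  NC Ω → ∀ T : HS Ω, T.gs = 1 → 2 ≤ T.d →
  ∀ (B : Fam Ω) (n : ℕ) (ι : Type u) [Fintype ι]
  [Nonempty ι] (p : ι → UV Ω), (∀ i j, i ≠ j → ¬ eqv (p i) (p j)) →
  ∀ (y : UV Ω) (s₁ s₂ κ t : ℝ), 0 ≤ s₁ → s₁ < s₂ → 0 ≤ t → ∀ I : Set ℕ, I.Infinite →
  (∀ i ∈ I, ∃ (c : Ω) (η : Fin (T.iter n).d → UV Ω),
    (T.iter n).IsRS (B.b i) c (fun l => (η l).1) ∧
    κ * ((T.iter n).d : ℝ) ≤
      ((univ.filter fun l => ‖wd (η l).1 y.1‖ ≤ Real.exp (-s₂)).card : ℝ)) →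
  ((univ.filter fun i => ‖wd (p i).1 y.1‖ < Real.exp (-s₁)).card : ℝ) ≤
    (κ - t) * Fintype.card ι →
  t ^ 2 * (s₂ - s₁) ≤ (∑ i, ∑ j, if i = j then 0 else gg T (p i) (p j)) /
    (Fintype.card ι : ℝ) ^ 2 +
    100 * (T.d : ℝ) ^ 2 * (T.Res + T.Res * (T.d : ℝ) ^ n + s₂) / Fintype.card ι +
    100 * (T.d : ℝ) ^ 2 * T.Res / (T.d : ℝ) ^ n

open Classical in
/-- COL2: the local dichotomy -/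
def S_COL2 : Prop := ∀ d : ℕ, 2 ≤ d → ∀ δ' δ : ℝ, 0 < δ' → 0 < δ → ∀ J₀ : ℕ,
  ∃ (J : ℕ) (ε : ℝ) (c N₀ : ℕ), J₀ ≤ J ∧ 0 < ε ∧
  ∀ (Ω : Type u) [NormedField Ω] [IsUltrametricDist Ω] [IsAlgClosed Ω],
  NC Ω → ∀ T : HS Ω, T.gs = 1 → T.d = d → 0 < T.Res →
  ∀ D : JD T,
  ∀ (ι : Type u) [Fintype ι] (p : ι → UV Ω), (∀ i j, i ≠ j → ¬ eqv (p i) (p j)) →
  N₀ ≤ Fintype.card ι →
  (ε * T.Res * (Fintype.card ι : ℝ) ^ 2 ≤ ∑ i, ∑ j, if i = j then 0 else gg T (p i) (p j)) ∨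
  ∃ (χ : ι → Fin c) (Bd : Finset ι), (Bd.card : ℝ) ≤ δ * Fintype.card ι ∧
    ∀ i, i ∉ Bd → ∀ j, j ∉ Bd → i ≠ j → χ i = χ j →
      J * (D.L - δ' * T.Res) - 20 * T.Res ≤ gg T (p i) (p j)

/-- JAC: the critical points and a lower bound for the Lyapunov exponent -/
def S_JAC : Prop := ∀ (Ω : Type u) [NormedField Ω] [IsUltrametricDist Ω] [IsAlgClosed Ω],
  NC Ω → ∀ d : ℕ, 2 ≤ d → ‖(d : Ω)‖ = 1 → ∀ p q : Polynomial Ω, p.natDegree ≤ d →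
  q.natDegree = d → IsCoprime p q → ∀ S₀ : HS Ω, S₀.F = bF d p q → S₀.d = d →
  ∀ C : Fin (2 * d - 2) → Ω × Ω, Crit d p q C →
  ∀ (A B : Ω × Ω) (h : wd A B ≠ 0) (s : Ω) (hs : s ≠ 0), (S₀.conj A B h s hs).gs = 1 →
  ∃ D : JD (S₀.conj A B h s hs), ∀ K : ℝ,
    (∀ X : Ω × Ω, X ≠ 0 → |Real.log ‖S₀.F X‖ - d * Real.log ‖X‖| ≤ K) → ∀ m : ℕ,
    (∑ i, Real.log ‖S₀.F^[m] (C i)‖) / (d : ℝ) ^ m + 2 * S₀.Res / d -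
      (2 * (d : ℝ) - 2) * K / (d : ℝ) ^ m ≤ D.L

/-- LDX: the local theorem with the minimal model -/
def S_LDX : Prop := ∀ (k : Type v) (K : Type u) [Field k] [Infinite k] [Field K] [Algebra k K]
  [DecidableEq K] (Q : PlaceData.{w} k K) (v : Q.Pl) (d : ℕ), 2 ≤ d → ∀ p q : K[X],
  p.natDegree ≤ d → q.natDegree = d → IsCoprime p q →
  ∀ P : Finset K, (∀ z ∈ P, q.eval z ≠ 0 ∧ p.eval z / q.eval z ∈ P) → ∀ a : K → ℝ,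
  (∀ z ∈ P, (d : ℝ) * a z = Q.ord v (q.eval z) + a (p.eval z / q.eval z)) → ∀ ρ : ℝ,
  ρ = (Q.ord v (resultant q p d d) : ℝ) / (d * ((d : ℝ) - 1)) →
  ∃ L : LD Q v d P a ρ,
    (∀ M : ℝ, 0 ≤ M → (∀ i, p.coeff i ≠ 0 → -M ≤ Q.ord v (p.coeff i)) →
      (∀ i, q.coeff i ≠ 0 → -M ≤ Q.ord v (q.coeff i)) →
      (L.R : ℝ) ≤ Q.ord v (resultant q p d d) + 2 * d * M) ∧
    ((∃ π : K, π ≠ 0 ∧ Q.ord v π ≠ 0) → ∃ (Ω : Type u) (_ : NormedField Ω)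
      (_ : IsUltrametricDist Ω) (_ : IsAlgClosed Ω) (ι : K →+* Ω) (S₀ : HS Ω)
      (A B : Ω × Ω) (h : wd A B ≠ 0) (s : Ω) (hs : s ≠ 0) (X : K → UV Ω),
      (∀ x : K, x ≠ 0 → ‖ι x‖ = Real.exp (-(Q.ord v x : ℝ))) ∧
      NC Ω ∧
      S₀.F = bF d (p.map ι) (q.map ι) ∧ S₀.d = d ∧ S₀.Res = Q.ord v (resultant q p d d) ∧
      (S₀.conj A B h s hs).gs = 1 ∧ (S₀.conj A B h s hs).Res = L.R ∧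
      ∀ z ∈ P, ∀ z' ∈ P, z ≠ z' → ¬ eqv (X z) (X z') ∧
        gg (S₀.conj A B h s hs) (X z) (X z') = GG Q v a ρ z z')

/-- LOC2: the local dichotomy at a place -/
def S_LOC2 : Prop := ∀ d : ℕ, 2 ≤ d → ∀ δ' δ : ℝ, 0 < δ' → 0 < δ → ∀ J₀ : ℕ,
  ∃ (J : ℕ) (ε : ℝ) (c N₀ : ℕ), J₀ ≤ J ∧ 0 < ε ∧
  ∀ (k : Type v) (K : Type u) [Field k] [Infinite k] [Field K] [Algebra k K] [DecidableEq K],
  (d : k) ≠ 0 → ∀ (Q : PlaceData.{w} k K) (v : Q.Pl) (p q : K[X]), p.natDegree ≤ d → q.natDegree = d →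
  IsCoprime p q → ∀ C : Fin (2 * d - 2) → K × K, Crit d p q C →
  ∀ P : Finset K, (∀ z ∈ P, q.eval z ≠ 0 ∧ p.eval z / q.eval z ∈ P) → ∀ a : K → ℝ,
  (∀ z ∈ P, (d : ℝ) * a z = Q.ord v (q.eval z) + a (p.eval z / q.eval z)) → ∀ ρ : ℝ,
  ρ = (Q.ord v (resultant q p d d) : ℝ) / (d * ((d : ℝ) - 1)) →
  ∀ M : ℝ, 0 ≤ M → (∀ i, p.coeff i ≠ 0 → -M ≤ Q.ord v (p.coeff i)) →
  (∀ i, q.coeff i ≠ 0 → -M ≤ Q.ord v (q.coeff i)) →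
  ∃ (L : LD Q v d P a ρ) (lam : ℝ),
    (L.R : ℝ) ≤ Q.ord v (resultant q p d d) + 2 * d * M ∧ lam ≤ 4 * d * J * L.R ∧
    (∀ m : ℕ, J * ((∑ i, -(vo (Q.ord v) ((bK d p q)^[m] (C i)) : ℝ)) / (d : ℝ) ^ m +
      2 * Q.ord v (resultant q p d d) / d -
      (2 * (d : ℝ) - 2) * (Q.ord v (resultant q p d d) + (2 * d + 1) * M) / (d : ℝ) ^ m -
      δ' * L.R) - 20 * L.R ≤ lam) ∧
    (1 ≤ L.R → N₀ ≤ P.card →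
      (ε * L.R * (P.card : ℝ) ^ 2 ≤ ∑ z ∈ P, ∑ z' ∈ P, if z = z' then 0 else GG Q v a ρ z z') ∨
      ∃ (χ : K → Fin c) (Bd : Finset K), Bd ⊆ P ∧ (Bd.card : ℝ) ≤ δ * P.card ∧
        ∀ z ∈ P, z ∉ Bd → ∀ z' ∈ P, z' ∉ Bd → z ≠ z' → χ z = χ z' → lam ≤ GG Q v a ρ z z')

/-- GLOB2: the global inequality -/
def S_GLOB2 : Prop := ∀ d Λ : ℕ, 2 ≤ d → 1 ≤ Λ → ∀ (c : ℕ) (ε Λ' : ℝ), 0 < ε → 0 ≤ Λ' →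
  ∃ N₀ M : ℕ,
  ∀ (k : Type v) (K : Type u) [Field k] [Field K] [Algebra k K] [DecidableEq K]
  (Q : PlaceData.{w} k K) (S : Finset Q.Pl) (P : Finset K) (a : Q.Pl → K → ℝ) (ρ : Q.Pl → ℝ)
  (L : ∀ v, LD Q v d P (a v) (ρ v)), N₀ ≤ P.card →
  (∀ v, v ∉ S → ∀ x ∈ P, ∀ y ∈ P, x ≠ y → Q.ord v (x - y) = 0) →
  (∀ v, v ∉ S → (∀ x ∈ P, a v x = 0) ∧ ρ v = 0) → Q.lossS ⊆ S →
  (∀ x ∈ P, ∑ v ∈ S, (Q.wt v : ℝ) * a v x = 0) →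
  (∑ v ∈ S, (Q.wt v : ℝ) * ρ v = 0) →
  (∀ m, 1 ≤ m → m ≤ M → ∀ b ∈ P, ∀ F : (Fin (2 * m) → K) →ₗ[K] K, F ≠ 0 →
    ∃ C ⊆ P, 1 / (2 * ((d : ℝ) + 1)) * P.card ≤ (C.card : ℝ) ∧ ∀ z ∈ C, F (Phi Q m b z) ≠ 0) →
  ∀ lam : Q.Pl → ℝ, (∀ v, lam v ≤ Λ' * (L v).R) →
  (∀ v, 1 ≤ (L v).R → (ε * (L v).R * (P.card : ℝ) ^ 2 ≤
      ∑ z ∈ P, ∑ z' ∈ P, if z = z' then 0 else GG Q v (a v) (ρ v) z z') ∨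
    ∃ (χ : K → Fin c) (Bd : Finset K), Bd ⊆ P ∧
      (Bd.card : ℝ) ≤ 1 / (32 * ((d : ℝ) + 1)) * P.card ∧
      ∀ z ∈ P, z ∉ Bd → ∀ z' ∈ P, z' ∉ Bd → z ≠ z' → χ z = χ z' →
        lam v ≤ GG Q v (a v) (ρ v) z z') →
  ∀ H : ℝ, (Q.lossT : ℝ) ≤ Λ * H → ∑ v ∈ S, (Q.wt v : ℝ) * (L v).R ≤ Λ * H →
  ∑ v ∈ S, (Q.wt v : ℝ) * lam v ≤ 20 * Λ * H

end Pool.Agent.E8helper71.CP.Y706.CH
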