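import Pool.Agent.E8helper71.CP.Y706.CH.Stm
import Pool.Agent.TH951.W.UH.G2

/-!
# Project CH: the bound over a field with place data
-/

namespace Pool.Agent.E8helper71.CP.Y706.CH

open Pool.Agent.TH951.W.UB Pool.Agent.TH951.W.UG Pool.Agent.TH951.W.UH Finset Polynomial
open Pool.Agent.E8helper71.CP.Y706.BI (UV eqv fU hh G0 gg rt Av)

universe u v w

section vo

variable {K : Type*} [Field K]

lemma bK_smul (d : ℕ) (p q : K[X]) (t : K) (X : K × K) :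
    bK d p q (t • X) = t ^ d • bK d p q X := by
  unfold bK
  rw [hev_smul, hev_smul]
  rfl

lemma bK_nz (d : ℕ) (p q : K[X]) (hp : p.natDegree ≤ d) (hq : q.natDegree = d)
    (hd : 1 ≤ d) (hco : IsCoprime p q) (X : K × K) (hX : X ≠ 0) : bK d p q X ≠ 0 := by
  intro h
  have h1 : hev d p X = 0 := congrArg Prod.fst h
  have h2 : hev d q X = 0 := congrArg Prod.snd h
  by_cases hX2 : X.2 = 0
  · have hX' : X = (X.1, 0) := Prod.ext rfl hX2
    rw [hX', hev_zero] at h2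
    have hq0 : q.coeff d ≠ 0 := by
      rw [← hq]
      apply Polynomial.leadingCoeff_ne_zero.mpr
      rintro rfl
      simp at hq
      omega
    have h3 := (mul_eq_zero.mp h2).resolve_left hq0
    have h4 : X.1 = 0 := by
      by_contra h5
      exact pow_ne_zero _ h5 h3
    exact hX (Prod.ext h4 hX2)
  · rw [hev_eval d p hp X hX2] at h1
    rw [hev_eval d q hq.le X hX2] at h2
    have e1 := (mul_eq_zero.mp h1).resolve_left (pow_ne_zero _ hX2)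
    have e2 := (mul_eq_zero.mp h2).resolve_left (pow_ne_zero _ hX2)
    obtain ⟨a, b, hab⟩ := hco
    have := congrArg (Polynomial.eval (X.1 / X.2)) hab
    simp [e1, e2] at this

lemma bK_iter_nz (d : ℕ) (p q : K[X]) (hp : p.natDegree ≤ d) (hq : q.natDegree = d)
    (hd : 1 ≤ d) (hco : IsCoprime p q) (X : K × K) (hX : X ≠ 0) (m : ℕ) :
    (bK d p q)^[m] X ≠ 0 := by
  induction m with
  | zero => exact hX
  | succ m ih =>
    rw [Function.iterate_succ_apply']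
    exact bK_nz d p q hp hq hd hco _ ih

lemma vo_le_fst (ord : K → ℤ) (X : K × K) (h : X.1 ≠ 0) : vo ord X ≤ ord X.1 := by
  unfold vo
  rw [if_neg h]
  split_ifs
  · exact le_rfl
  · exact min_le_left _ _

lemma vo_le_snd (ord : K → ℤ) (X : K × K) (h : X.2 ≠ 0) : vo ord X ≤ ord X.2 := by
  unfold vo
  split_ifs
  · exact le_rfl
  · exact min_le_right _ _

lemma vo_eq_zero (ord : K → ℤ) (X : K × K) (hX : X ≠ 0) (h1 : X.1 ≠ 0 → ord X.1 = 0)
    (h2 : X.2 ≠ 0 → ord X.2 = 0) : vo ord X = 0 := by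
  unfold vo
  split_ifs with h3 h4
  · exact h2 fun h4 => hX (Prod.ext h3 h4)
  · exact h1 h3
  · rw [h1 h3, h2 h4, min_self]

/-- the height of a point is not negative -/
lemma vo_sum_nonneg {k : Type*} [Field k] [Algebra k K] (Q : PlaceData k K) (X : K × K)
    (hX : X ≠ 0) (S : Finset Q.Pl) (h1 : X.1 ≠ 0 → ∀ v, v ∉ S → Q.ord v X.1 = 0)
    (h2 : X.2 ≠ 0 → ∀ v, v ∉ S → Q.ord v X.2 = 0) :
    0 ≤ ∑ v ∈ S, (Q.wt v : ℝ) * (-(vo (Q.ord v) X : ℝ)) := by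
  have hwt : ∀ v, (0 : ℝ) ≤ Q.wt v := fun v => by exact_mod_cast Q.wt_nonneg v
  by_cases h : X.1 = 0
  · have h' : X.2 ≠ 0 := fun h' => hX (Prod.ext h h')
    have e1 := prod_zero' Q S X.2 h' (h2 h')
    have e2 : ∑ v ∈ S, (Q.wt v : ℝ) * (-(vo (Q.ord v) X : ℝ)) =
        -∑ v ∈ S, (Q.wt v : ℝ) * Q.ord v X.2 := by
      rw [← Finset.sum_neg_distrib]
      apply Finset.sum_congr rfl
      intro v _
      unfold vo
      rw [if_pos h]
      ring
    rw [e2, e1, neg_zero]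
  · have e1 := prod_zero' Q S X.1 h (h1 h)
    have e2 : -∑ v ∈ S, (Q.wt v : ℝ) * Q.ord v X.1 ≤
        ∑ v ∈ S, (Q.wt v : ℝ) * (-(vo (Q.ord v) X : ℝ)) := by
      rw [← Finset.sum_neg_distrib]
      apply Finset.sum_le_sum
      intro v _
      have : (vo (Q.ord v) X : ℝ) ≤ Q.ord v X.1 := by exact_mod_cast vo_le_fst _ X h
      have := mul_le_mul_of_nonneg_left this (hwt v)
      linarith
    rw [e1] at e2
    linarith

end vo

theorem finQ (hLOC : S_LOC2.{u, u, u}) (hGLOB : S_GLOB2.{u, u, u}) (d Λ B : ℕ) (hd : 2 ≤ d)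
    (hΛ : 1 ≤ Λ) (hB : 1 ≤ B) :
    ∃ N : ℕ, ∀ (k K : Type u) [Field k] [Infinite k] [Field K] [Algebra k K] [DecidableEq K],
    (d : k) ≠ 0 →
    ∀ (Q : PlaceData.{u} k K) (p q : K[X]), p.natDegree ≤ d → q.natDegree = d → IsCoprime p q →
    ∀ Cr : Fin (2 * d - 2) → K × K, Crit d p q Cr →
    ∀ P : Finset K, (∀ z ∈ P, q.eval z ≠ 0 ∧ p.eval z / q.eval z ∈ P) →
    ∀ (S₀ : Finset Q.Pl) (Mv : Q.Pl → ℝ) (H : ℝ), (∀ v, 0 ≤ Mv v) → (∀ v, v ∉ S₀ → Mv v = 0) →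
    (∀ v i, p.coeff i ≠ 0 → -Mv v ≤ Q.ord v (p.coeff i)) →
    (∀ v i, q.coeff i ≠ 0 → -Mv v ≤ Q.ord v (q.coeff i)) →
    ∑ v ∈ S₀, (Q.wt v : ℝ) * Mv v ≤ H → 0 < H → (Q.lossT : ℝ) ≤ Λ * H →
    (∀ M₀ : ℕ, ∃ m, M₀ ≤ m ∧ ∃ i, ∀ S : Finset Q.Pl,
      (∀ v, v ∉ S → vo (Q.ord v) ((bK d p q)^[m] (Cr i)) = 0) →
      (d : ℝ) ^ m * H ≤
        B * ∑ v ∈ S, (Q.wt v : ℝ) * (-(vo (Q.ord v) ((bK d p q)^[m] (Cr i)) : ℝ))) →
    N ≤ P.card → ∃ T ⊆ P, (d + 1) * (P \ T).card + (3 * d + 4) ≤ P.card ∧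
      ∃ α β γ : K, ∀ x ∈ T, Q.D x = α * x ^ 2 + β * x + γ := by
  classical
  have hdR : (2 : ℝ) ≤ d := by exact_mod_cast hd
  have hBR : (1 : ℝ) ≤ B := by exact_mod_cast hB
  set Λ₁ : ℕ := Λ + 2 * d with hΛ₁
  obtain ⟨J, ε, c, N₁, hJ, hε, hloc⟩ := hLOC d hd (1 / (8 * d * B)) (1 / (32 * ((d : ℝ) + 1)))
    (by positivity) (by positivity) (2 * B * (40 * d + 20 * Λ₁) + 1)
  obtain ⟨N₀, M, hglob⟩ := hGLOB d Λ₁ hd (by omega) c ε (4 * d * J) hε (by positivity)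
  refine ⟨N₀ + N₁ + 4 * ((M + 3) * (d + 1)) + (3 * d + 4) + (4 * d + 4) + 1, ?_⟩
  intro k K _ _ _ _ _ hdk Q p q hp hq hco Cr hCr P hP S₀ Mv H hM0 hMS hMp hMq hMH hH hloss hcrit hN
  by_contra hnex
  have hres := res_ne d p q hp hq (by omega) hco
  set r := resultant q p d d with hr
  set fz : K → K := fun z => p.eval z / q.eval z with hfz
  have hf : ∀ z ∈ P, fz z ∈ P := fun z hz => (hP z hz).2
  obtain ⟨m, hm, i₀, hm2⟩ := hcrit (16 * B * d ^ 2)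
  set E : Finset K := insert r (P.image q.eval ∪ P.offDiag.image fun w => w.1 - w.2) ∪
    (univ.image (fun i => ((bK d p q)^[m] (Cr i)).1) ∪
      univ.image (fun i => ((bK d p q)^[m] (Cr i)).2)) with hE
  set S : Finset Q.Pl := Q.lossS ∪ S₀ ∪ E.biUnion (fun x => if h : x ≠ 0 then
    (Q.fin x h).toFinset else ∅) with hS
  have hSE : ∀ v, v ∉ S → ∀ x ∈ E, x ≠ 0 → Q.ord v x = 0 := by
    intro v hv x hx hx0
    by_contra h
    apply hv
    rw [hS, Finset.mem_union]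
    right
    rw [Finset.mem_biUnion]
    refine ⟨x, hx, ?_⟩
    rw [dif_pos hx0, Set.Finite.mem_toFinset]
    exact h
  have hrE : r ∈ E := Finset.mem_union_left _ (Finset.mem_insert_self _ _)
  have hqE : ∀ z ∈ P, q.eval z ∈ E := fun z hz => Finset.mem_union_left _
    (Finset.mem_insert_of_mem (Finset.mem_union_left _ (Finset.mem_image_of_mem _ hz)))
  have hxE : ∀ x ∈ P, ∀ y ∈ P, x ≠ y → x - y ∈ E := fun x hx y hy hxy =>
    Finset.mem_union_left _ (Finset.mem_insert_of_mem (Finset.mem_union_right _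
      (Finset.mem_image.mpr ⟨(x, y), Finset.mem_offDiag.mpr ⟨hx, hy, hxy⟩, rfl⟩)))
  have hC1E : ∀ i, ((bK d p q)^[m] (Cr i)).1 ∈ E := fun i => Finset.mem_union_right _
    (Finset.mem_union_left _ (Finset.mem_image_of_mem _ (Finset.mem_univ i)))
  have hC2E : ∀ i, ((bK d p q)^[m] (Cr i)).2 ∈ E := fun i => Finset.mem_union_right _
    (Finset.mem_union_right _ (Finset.mem_image_of_mem _ (Finset.mem_univ i)))
  have hCnz : ∀ i, (bK d p q)^[m] (Cr i) ≠ 0 := fun i =>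
    bK_iter_nz d p q hp hq (by omega) hco _ (hCr.1 i) m
  choose a ha using fun v => exists_a d hd P fz hf (fun z => (Q.ord v (q.eval z) : ℝ))
  set ρ : Q.Pl → ℝ := fun v => (Q.ord v r : ℝ) / (d * ((d : ℝ) - 1)) with hρ
  have hlocv := fun v => hloc k K hdk Q v p q hp hq hco Cr hCr P hP (a v) (ha v) (ρ v) rfl (Mv v)
    (hM0 v) (hMp v) (hMq v)
  choose L lam hLR hlam hlow hdich using hlocv
  have hS1 : ∀ v, v ∉ S → ∀ x ∈ P, ∀ y ∈ P, x ≠ y → Q.ord v (x - y) = 0 :=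
    fun v hv x hx y hy hxy => hSE v hv _ (hxE x hx y hy hxy) (sub_ne_zero.mpr hxy)
  have hS2 : ∀ v, v ∉ S → (∀ x ∈ P, a v x = 0) ∧ ρ v = 0 := by
    intro v hv
    constructor
    · apply stable_zero d hd P fz hf
      intro z hz
      rw [ha v z hz, hSE v hv _ (hqE z hz) (hP z hz).1]
      simp
    · simp only [hρ]
      rw [hSE v hv r hrE hres]
      simp
  have hS3 : Q.lossS ⊆ S := Finset.subset_union_left.trans Finset.subset_union_left
  have hS4 : S₀ ⊆ S := Finset.subset_union_right.trans Finset.subset_union_left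
  have hwa : ∀ x ∈ P, ∑ v ∈ S, (Q.wt v : ℝ) * a v x = 0 := by
    apply stable_zero d hd P fz hf (fun x => ∑ v ∈ S, (Q.wt v : ℝ) * a v x)
    intro z hz
    have h2 := prod_zero' Q S (q.eval z) (hP z hz).1
      (fun v hv => hSE v hv _ (hqE z hz) (hP z hz).1)
    have h3 : (d : ℝ) * ∑ v ∈ S, (Q.wt v : ℝ) * a v z =
        ∑ v ∈ S, (Q.wt v : ℝ) * (Q.ord v (q.eval z) : ℝ) +
          ∑ v ∈ S, (Q.wt v : ℝ) * a v (fz z) := by
      rw [Finset.mul_sum, ← Finset.sum_add_distrib]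
      apply Finset.sum_congr rfl
      intro v _
      have := ha v z hz
      linear_combination (Q.wt v : ℝ) * this
    rw [h3, h2, zero_add]
  have hwr := prod_zero' Q S r hres (fun v hv => hSE v hv _ hrE hres)
  have hwρ : ∑ v ∈ S, (Q.wt v : ℝ) * ρ v = 0 := by
    have h3 : ∑ v ∈ S, (Q.wt v : ℝ) * ρ v =
        (∑ v ∈ S, (Q.wt v : ℝ) * (Q.ord v r : ℝ)) / (d * ((d : ℝ) - 1)) := by
      rw [Finset.sum_div]
      apply Finset.sum_congr rfl
      intro v _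
      simp only [hρ]
      ring
    rw [h3, hwr, zero_div]
  have hwt : ∀ v, (0 : ℝ) ≤ Q.wt v := fun v => by exact_mod_cast Q.wt_nonneg v
  have hMS' : ∑ v ∈ S, (Q.wt v : ℝ) * Mv v ≤ H := by
    rw [← Finset.sum_subset hS4]
    · exact hMH
    · intro v _ hv
      rw [hMS v hv, mul_zero]
  have hΛH : (0 : ℝ) ≤ Λ * H := by positivity
  have hR : ∑ v ∈ S, (Q.wt v : ℝ) * (L v).R ≤ 2 * d * H := by
    have h1 : ∑ v ∈ S, (Q.wt v : ℝ) * (L v).R ≤
        ∑ v ∈ S, ((Q.wt v : ℝ) * (Q.ord v r : ℝ) + 2 * d * ((Q.wt v : ℝ) * Mv v)) := by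
      apply Finset.sum_le_sum
      intro v _
      have := mul_le_mul_of_nonneg_left (hLR v) (hwt v)
      linarith
    rw [Finset.sum_add_distrib, hwr, ← Finset.mul_sum, zero_add] at h1
    exact h1.trans (mul_le_mul_of_nonneg_left hMS' (by positivity))
  have hna : ∀ T ⊆ P, ∀ α β γ : K, (∀ x ∈ T, Q.D x = α * x ^ 2 + β * x + γ) →
      P.card < (d + 1) * (P \ T).card + (3 * d + 4) := by
    intro T hT α β γ hq2
    by_contra hcon
    push Not at hcon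
    exact hnex ⟨T, hT, hcon, α, β, γ, hq2⟩
  have hup := hglob k K Q S P a ρ L (by omega) hS1 hS2 hS3 hwa hwρ (by
    intro m hm hmM b _ F hF
    apply functional_countR Q p q d hd hp hq hco P hP m hna _ b F hF
    have h1 : (m + 3) * (d + 1) ≤ (M + 3) * (d + 1) := Nat.mul_le_mul_right _ (by omega)
    omega) lam hlam (fun v hv => hdich v hv (by omega)) H (hloss.trans (by
      rw [hΛ₁]; push_cast
      have : (0 : ℝ) ≤ 2 * d * H := by positivity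
      nlinarith)) (hR.trans (by
      rw [hΛ₁]; push_cast
      nlinarith))
  -- the lower bound
  have hdm : (16 * B * d ^ 2 : ℝ) ≤ (d : ℝ) ^ m := by
    have h1 : m < 2 ^ m := Nat.lt_two_pow_self
    have h2 : 2 ^ m ≤ d ^ m := Nat.pow_le_pow_left hd m
    have h3 : 16 * B * d ^ 2 ≤ d ^ m := by omega
    exact_mod_cast h3
  have hdm0 : (0 : ℝ) < (d : ℝ) ^ m := by positivity
  set hgt : Fin (2 * d - 2) → ℝ := fun i =>
    ∑ v ∈ S, (Q.wt v : ℝ) * (-(vo (Q.ord v) ((bK d p q)^[m] (Cr i)) : ℝ)) with hhgt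
  have hg0 : ∀ i, 0 ≤ hgt i := fun i => vo_sum_nonneg Q _ (hCnz i) S
    (fun h v hv => hSE v hv _ (hC1E i) h) (fun h v hv => hSE v hv _ (hC2E i) h)
  have hg1 : (d : ℝ) ^ m * H ≤ B * hgt i₀ := hm2 S fun v hv =>
    vo_eq_zero _ _ (hCnz i₀) (fun h => hSE v hv _ (hC1E i₀) h) (fun h => hSE v hv _ (hC2E i₀) h)
  have hg2 : hgt i₀ ≤ ∑ i, hgt i := Finset.single_le_sum (fun i _ => hg0 i) (Finset.mem_univ i₀)
  have hlow' : (J : ℝ) * ((∑ i, hgt i) / (d : ℝ) ^ m -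
      (2 * (d : ℝ) - 2) * ((2 * d + 1) * ∑ v ∈ S, (Q.wt v : ℝ) * Mv v) / (d : ℝ) ^ m -
      (1 / (8 * d * B)) * ∑ v ∈ S, (Q.wt v : ℝ) * (L v).R) -
      20 * ∑ v ∈ S, (Q.wt v : ℝ) * (L v).R ≤ ∑ v ∈ S, (Q.wt v : ℝ) * lam v := by
    have h1 : ∑ v ∈ S, (Q.wt v : ℝ) * (J * ((∑ i, -(vo (Q.ord v) ((bK d p q)^[m] (Cr i)) : ℝ)) /
        (d : ℝ) ^ m + 2 * Q.ord v r / d -
        (2 * (d : ℝ) - 2) * (Q.ord v r + (2 * d + 1) * Mv v) / (d : ℝ) ^ m -
        (1 / (8 * d * B)) * (L v).R) - 20 * (L v).R) ≤ ∑ v ∈ S, (Q.wt v : ℝ) * lam v := by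
      apply Finset.sum_le_sum
      intro v _
      exact mul_le_mul_of_nonneg_left (hlow v m) (hwt v)
    refine le_trans (le_of_eq ?_) h1
    have h2 : ∑ i, hgt i = ∑ v ∈ S, (Q.wt v : ℝ) *
        ∑ i, -(vo (Q.ord v) ((bK d p q)^[m] (Cr i)) : ℝ) := by
      simp only [hhgt]
      rw [Finset.sum_comm]
      apply Finset.sum_congr rfl
      intro v _
      rw [Finset.mul_sum]
    have h3 : ∑ v ∈ S, (Q.wt v : ℝ) * (J * ((∑ i, -(vo (Q.ord v) ((bK d p q)^[m] (Cr i)) : ℝ)) /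
        (d : ℝ) ^ m + 2 * Q.ord v r / d -
        (2 * (d : ℝ) - 2) * (Q.ord v r + (2 * d + 1) * Mv v) / (d : ℝ) ^ m -
        (1 / (8 * d * B)) * (L v).R) - 20 * (L v).R) =
        ∑ v ∈ S, ((J / (d : ℝ) ^ m) * ((Q.wt v : ℝ) *
          ∑ i, -(vo (Q.ord v) ((bK d p q)^[m] (Cr i)) : ℝ)) +
        (J * (2 / d - (2 * (d : ℝ) - 2) / (d : ℝ) ^ m)) * ((Q.wt v : ℝ) * Q.ord v r) +
        (-(J * ((2 * (d : ℝ) - 2) * (2 * d + 1) / (d : ℝ) ^ m))) * ((Q.wt v : ℝ) * Mv v) +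
        (-(J * (1 / (8 * d * B)) + 20)) * ((Q.wt v : ℝ) * (L v).R)) := by
      apply Finset.sum_congr rfl
      intro v _
      ring
    rw [h3, Finset.sum_add_distrib, Finset.sum_add_distrib, Finset.sum_add_distrib,
      ← Finset.mul_sum, ← Finset.mul_sum, ← Finset.mul_sum, ← Finset.mul_sum, hwr, h2]
    ring
  set sR := ∑ v ∈ S, (Q.wt v : ℝ) * (L v).R with hsR
  set sM := ∑ v ∈ S, (Q.wt v : ℝ) * Mv v with hsM
  have e1 : H / B ≤ (∑ i, hgt i) / (d : ℝ) ^ m := by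
    rw [div_le_div_iff₀ (by positivity) hdm0]
    nlinarith
  have e2 : (2 * (d : ℝ) - 2) * ((2 * d + 1) * sM) / (d : ℝ) ^ m ≤ H / (4 * B) := by
    have h0 : (2 * (d : ℝ) - 2) * (2 * d + 1) ≤ 4 * d ^ 2 := by nlinarith
    have h00 : (0 : ℝ) ≤ (2 * (d : ℝ) - 2) * (2 * d + 1) := by
      apply mul_nonneg <;> linarith
    rw [div_le_div_iff₀ hdm0 (by positivity)]
    have h1 : (2 * (d : ℝ) - 2) * ((2 * d + 1) * sM) ≤ 4 * d ^ 2 * H := by
      calc (2 * (d : ℝ) - 2) * ((2 * d + 1) * sM) = ((2 * (d : ℝ) - 2) * (2 * d + 1)) * sM := by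
            ring
        _ ≤ ((2 * (d : ℝ) - 2) * (2 * d + 1)) * H := mul_le_mul_of_nonneg_left hMS' h00
        _ ≤ 4 * d ^ 2 * H := mul_le_mul_of_nonneg_right h0 hH.le
    calc (2 * (d : ℝ) - 2) * ((2 * d + 1) * sM) * (4 * B) ≤ 4 * d ^ 2 * H * (4 * B) :=
          mul_le_mul_of_nonneg_right h1 (by positivity)
      _ = H * (16 * B * d ^ 2) := by ring
      _ ≤ H * (d : ℝ) ^ m := mul_le_mul_of_nonneg_left hdm hH.le
  have e3 : (1 / (8 * (d : ℝ) * B)) * sR ≤ H / (4 * B) := by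
    calc (1 / (8 * (d : ℝ) * B)) * sR ≤ (1 / (8 * (d : ℝ) * B)) * (2 * d * H) :=
          mul_le_mul_of_nonneg_left hR (by positivity)
      _ = H / (4 * B) := by field_simp; ring
  have e4 : (J : ℝ) * (H / (2 * B)) ≤ J * ((∑ i, hgt i) / (d : ℝ) ^ m -
      (2 * (d : ℝ) - 2) * ((2 * d + 1) * sM) / (d : ℝ) ^ m - (1 / (8 * d * B)) * sR) := by
    apply mul_le_mul_of_nonneg_left _ (Nat.cast_nonneg J)
    have : H / B - H / (4 * B) - H / (4 * B) = H / (2 * B) := by field_simp; ring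
    linarith
  have e5 : (J : ℝ) * (H / (2 * B)) ≤ (40 * d + 20 * Λ₁) * H := by
    linarith
  have e6 : (J : ℝ) ≤ 2 * B * (40 * d + 20 * Λ₁) := by
    have h1 : (J : ℝ) * (H / (2 * B)) = (J / (2 * B)) * H := by ring
    rw [h1] at e5
    have h2 := le_of_mul_le_mul_right e5 hH
    rw [div_le_iff₀ (by positivity)] at h2
    linarith
  have e7 : J ≤ 2 * B * (40 * d + 20 * Λ₁) := by exact_mod_cast e6
  omega

end Pool.Agent.E8helper71.CP.Y706.CH
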